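import Pool.Agent.Y671.BN.Data

/-!
Complete, properly embedded, biharmonic submanifolds with nowhere vanishing mean curvature of
complete Riemannian manifolds of sectional curvature `≤ -1/100`, in all dimensions `m ≥ 2` and all
codimensions `≥ 1`.

Ambient manifold: `N = ℝ × ℝ × ℝˡ` with coordinates `(t, r, y)` and the metric
`dt² + α(t, r)² dr² + β(t, r)² |dy|²`, where `α = cosh t - a(r) sinh t + η(r) (cosh t - 1)` and
`β = W(r) (cosh t - b(r) sinh t)`. The submanifold is `{t = 0, y ∈ ℝᵏ × 0}`; its mean curvature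
vector is `H(r) ∂_t` with `H(r) = 1/4 + arctan(r)/4096`, its principal curvatures are `a`
(once) and `b` (`k` times).
-/

set_option autoImplicit false

namespace Pool.Agent.Results.MP_44343f_gt.AllDimensions

open scoped ContDiff Topology
open Pool.Agent.W555.RG Pool.Agent.Y671.BN

/-- the standard inclusion `ℝᵏ → ℝˡ` -/
noncomputable def incl {k l : ℕ} (hkl : k ≤ l) :
    EuclideanSpace ℝ (Fin k) →ₗᵢ[ℝ] EuclideanSpace ℝ (Fin l) :=
  LinearMap.isometryOfOrthonormal
    ((EuclideanSpace.basisFun (Fin k) ℝ).toBasis.constr ℝ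
      (fun i => EuclideanSpace.basisFun (Fin l) ℝ (Fin.castLE hkl i)))
    (v := (EuclideanSpace.basisFun (Fin k) ℝ).toBasis)
    (by
      rw [OrthonormalBasis.coe_toBasis]
      exact (EuclideanSpace.basisFun (Fin k) ℝ).orthonormal)
    (by
      have h : (((EuclideanSpace.basisFun (Fin k) ℝ).toBasis.constr ℝ
          (fun i => EuclideanSpace.basisFun (Fin l) ℝ (Fin.castLE hkl i))) ∘
            (EuclideanSpace.basisFun (Fin k) ℝ).toBasis) =
          (EuclideanSpace.basisFun (Fin l) ℝ) ∘ (Fin.castLE hkl) := by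
        funext i
        simp only [Function.comp_apply, Module.Basis.constr_basis]
      rw [h]
      exact (EuclideanSpace.basisFun (Fin l) ℝ).orthonormal.comp _ (Fin.castLE_injective hkl))

section Defs

variable {V : Type} [NormedAddCommGroup V] [NormedSpace ℝ V]
variable {W : Type} [NormedAddCommGroup W] [NormedSpace ℝ W]

/-- All sectional curvatures are at most `c`:
`⟨R(u, v) v, u⟩ ≤ c (|u|² |v|² - ⟨u, v⟩²)` for all tangent vectors `u, v`. -/
def CurvLe (h : RMetric V) (c : ℝ) : Prop :=
  ∀ x u v, h.form x (h.curv x u v v) u ≤ c * (h.form x u u * h.form x v v - h.form x u v ^ 2)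

/-- `φ : (V, g) → (W, h)` is a smooth isometric immersion of a complete manifold, a closed embedding,
biharmonic, with nowhere vanishing tension field. -/
def IsExample (g : RMetric V) (h : RMetric W) (φ : V → W) : Prop :=
  g.IsComplete ∧ IsIsometricImmersion g h φ ∧ Topology.IsClosedEmbedding φ ∧
    (∀ x, bitension g h φ x = 0) ∧ ∀ x, tension g h φ x ≠ 0

end Defs

/-- For all `k ≥ 1` and `l ≥ k` (dimensions `m = k + 1 ≥ 2` and `n = l + 2 ≥ m + 1`) there are a
complete Riemannian metric `h` on `N = ℝ × ℝ × ℝˡ ≅ ℝⁿ` all of whose sectional curvatures are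
`≤ -1/100`, a complete Riemannian metric `g` on `M = ℝ × ℝᵏ ≅ ℝᵐ`, and a smooth isometric immersion
`φ : (M, g) → (N, h)`, which is a closed embedding, such that `φ` is biharmonic (its bitension field
vanishes identically) and its tension field vanishes nowhere. -/
theorem result : ∀ k l : ℕ, 1 ≤ k → k ≤ l →
    ∃ (h : RMetric (ℝ × ℝ × EuclideanSpace ℝ (Fin l)))
      (g : RMetric (ℝ × EuclideanSpace ℝ (Fin k)))
      (φ : ℝ × EuclideanSpace ℝ (Fin k) → ℝ × ℝ × EuclideanSpace ℝ (Fin l)),
      h.IsComplete ∧ h.Nonpos ∧ CurvLe h (-(1 / 100)) ∧ IsExample g h φ := by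
  intro k l hk hkl
  have hκ : (1 : ℝ) ≤ (k : ℝ) := by exact_mod_cast hk
  obtain ⟨h, g, φ, h1, h2, h3, h4, h5, h6, h7, h8⟩ :=
    (Data.T0 hκ).example_of (by simp) (incl hkl)
  refine ⟨h, g, φ, h3, h2, fun x u v => ?_, h4, h5, h6, h7, h8⟩
  rw [neg_mul]
  exact h1 x u v

end Pool.Agent.Results.MP_44343f_gt.AllDimensions
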